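import Pool.Agent.W977.CG.Spec

/-! Part `PartComb` of the project CG (MP_954e53_ag): the combinatorial end. -/

set_option autoImplicit false

open Polynomial

namespace Pool.Agent.W252.CG

/-- coefficients of `(1 - X) ^ D` -/
theorem coeff_pow (D : ℕ) : ∀ i : ℕ, PowerSeries.coeff i ((1 - PowerSeries.X : PowerSeries ℚ) ^ D) =
    (-1) ^ i * (D.choose i : ℚ) := by
  induction D with
  | zero =>
    intro i
    rw [pow_zero, PowerSeries.coeff_one]
    rcases i with _ | i
    · simp
    · simp
  | succ D ih =>
    intro i
    rw [pow_succ, mul_sub, mul_one, map_sub, ih]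
    rcases i with _ | i
    · simp
    · rw [PowerSeries.coeff_succ_mul_X, ih, Nat.choose_succ_succ]
      push_cast
      ring

/-- partial alternating sums -/
theorem alt_sum (E h : ℕ) : ∑ i ∈ Finset.range (h + 1), (-1 : ℚ) ^ i * ((E + 1).choose i : ℚ) =
    (-1) ^ h * (E.choose h : ℚ) := by
  induction h with
  | zero => simp
  | succ h ih =>
    rw [Finset.sum_range_succ, ih, Nat.choose_succ_succ E h]
    push_cast
    ring

theorem choose_lt (n k : ℕ) (h : 2 * k + 1 < n) : n.choose k < n.choose (k + 1) := by
  have h1 := Nat.choose_succ_right_eq n k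
  have h2 : 0 < n.choose k := Nat.choose_pos (by omega)
  by_contra hcon
  push Not at hcon
  have h3 : n.choose (k + 1) * (k + 1) ≤ n.choose k * (k + 1) := Nat.mul_le_mul_right _ hcon
  have h4 : n.choose k * (k + 1) < n.choose k * (n - k) := by
    apply Nat.mul_lt_mul_of_pos_left _ h2
    omega
  omega

theorem part : W977.CG.PartComb := by
  intro F D P hF hv hP0 hpal hpos
  set v := P.natDegree with hvdef
  have hco : ∀ i, P.coeff i = ∑ x ∈ Finset.HasAntidiagonal.antidiagonal i,
      PowerSeries.coeff x.1 F * ((-1) ^ x.2 * (D.choose x.2 : ℚ)) := by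
    intro i
    rw [← Polynomial.coeff_coe, ← hF, PowerSeries.coeff_mul]
    apply Finset.sum_congr rfl
    intro x _
    rw [coeff_pow]
  have hF0 : PowerSeries.coeff 0 F = 1 := by
    have h := hco 0
    rw [hP0] at h
    simpa using h.symm
  have heval : P.eval 1 = ∑ i ∈ Finset.range (v + 1), P.coeff i := by
    rw [Polynomial.eval_eq_sum_range]
    simp [hvdef]
  have hbig : ∀ i, v < i → P.coeff i = 0 := fun i hi =>
    Polynomial.coeff_eq_zero_of_natDegree_lt hi
  obtain ⟨E, rfl⟩ : ∃ E, D = E + 1 := ⟨D - 1, by omega⟩
  constructor
  · by_contra hcon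
    push Not at hcon
    have hc : ∀ i, i ≤ 2 * (v / 4) + 1 → P.coeff i = (-1) ^ i * ((E + 1).choose i : ℚ) := by
      intro i hi
      rw [hco i, Finset.sum_eq_single (0, i)]
      · simp only
        rw [hF0, one_mul]
      · rintro ⟨a, b⟩ hab hne
        rw [Finset.HasAntidiagonal.mem_antidiagonal] at hab
        simp only at hab
        have ha : 1 ≤ a := by
          rcases Nat.eq_zero_or_pos a with h0 | h0
          · exfalso
            apply hne
            subst h0
            rw [zero_add] at hab
            rw [hab]
          · exact h0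
        have h0 := hcon a ha (by omega)
        simp only
        rw [h0, zero_mul]
      · intro h
        exfalso
        apply h
        rw [Finset.HasAntidiagonal.mem_antidiagonal]
        exact zero_add i
    obtain ⟨u, w, hu, hw, huw⟩ : ∃ u w, u = v / 4 ∧ w < 4 ∧ v = 4 * u + w :=
      ⟨v / 4, v % 4, rfl, Nat.mod_lt _ (by norm_num), by omega⟩
    rw [← hu] at hc
    have hcases : w = 0 ∨ w = 1 ∨ w = 2 ∨ w = 3 := by omega
    rcases hcases with rfl | rfl | rfl | rfl
    · -- w = 0
      rcases Nat.eq_zero_or_pos u with h0 | h0
      · have h1 := hc 1 (by omega)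
        rw [hbig 1 (by omega)] at h1
        simp only [pow_one, Nat.choose_one_right, neg_mul, one_mul] at h1
        have h2 : (0 : ℚ) < ((E + 1 : ℕ) : ℚ) := by positivity
        linarith
      · obtain ⟨g, hg⟩ : ∃ g, 2 * u = g + 1 := ⟨2 * u - 1, by omega⟩
        have h1 := hpal (g + 2) (by omega)
        have e1 : v - (g + 2) = g := by omega
        rw [e1, hc (g + 2) (by omega), hc g (by omega), pow_add] at h1
        have h2 : ((-1 : ℚ) ^ g) ≠ 0 := pow_ne_zero _ (by norm_num)
        have h3 : ((E + 1).choose (g + 2) : ℚ) = ((E + 1).choose g : ℚ) := by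
          have h4 : (-1 : ℚ) ^ g * ((E + 1).choose (g + 2) : ℚ) =
              (-1) ^ g * ((E + 1).choose g : ℚ) := by
            linear_combination h1
          exact mul_left_cancel₀ h2 h4
        have h5 : (E + 1).choose (g + 2) = (E + 1).choose g := by exact_mod_cast h3
        have h6 := choose_lt (E + 1) g (by omega)
        have h7 : (E + 1).choose (g + 1) ≤ (E + 1).choose (g + 2) := by
          have h8 := Nat.choose_succ_right_eq (E + 1) (g + 1)
          by_contra hlt
          push Not at hlt
          have h9 : (E + 1).choose (g + 1 + 1) * (g + 1 + 1) <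
              (E + 1).choose (g + 1) * (g + 1 + 1) := Nat.mul_lt_mul_of_pos_right hlt (by omega)
          have h10 : (E + 1).choose (g + 1) * (g + 1 + 1) ≤
              (E + 1).choose (g + 1) * (E + 1 - (g + 1)) := by
            apply Nat.mul_le_mul_left
            omega
          omega
        omega
    · -- w = 1
      have h1 := hpal (2 * u + 1) (by omega)
      have e1 : v - (2 * u + 1) = 2 * u := by omega
      rw [e1, hc (2 * u + 1) (by omega), hc (2 * u) (by omega), pow_succ, pow_mul] at h1
      norm_num at h1
      have h2 : 0 < (E + 1).choose (2 * u) := Nat.choose_pos (by omega)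
      have h3 : (0 : ℚ) < ((E + 1).choose (2 * u) : ℚ) := by exact_mod_cast h2
      have h4 : (0 : ℚ) ≤ ((E + 1).choose (2 * u + 1) : ℚ) := by positivity
      linarith
    · -- w = 2
      have hsum : ∑ i ∈ Finset.range (v + 1), P.coeff i =
          2 * ∑ i ∈ Finset.range (2 * u + 1), P.coeff i + P.coeff (2 * u + 1) := by
        have e1 : v + 1 = (2 * u + 1 + 1) + (2 * u + 1) := by omega
        rw [e1, Finset.sum_range_add, Finset.sum_range_succ _ (2 * u + 1)]
        have e2 : ∑ x ∈ Finset.range (2 * u + 1), P.coeff (2 * u + 1 + 1 + x) =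
            ∑ x ∈ Finset.range (2 * u + 1), P.coeff x := by
          rw [← Finset.sum_range_reflect]
          apply Finset.sum_congr rfl
          intro x hx
          rw [Finset.mem_range] at hx
          rw [hpal _ (by omega)]
          congr 1
          omega
        rw [e2]
        ring
      rw [heval, hsum, hc (2 * u + 1) (by omega),
        Finset.sum_congr rfl (fun i hi => hc i (by rw [Finset.mem_range] at hi; omega)),
        alt_sum E (2 * u), pow_succ, pow_mul] at hpos
      norm_num at hpos
      have h6 := choose_lt E (2 * u) (by omega)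
      have h7 : (E + 1).choose (2 * u + 1) = E.choose (2 * u) + E.choose (2 * u + 1) :=
        Nat.choose_succ_succ E (2 * u)
      rw [h7] at hpos
      push_cast at hpos
      have h8 : (E.choose (2 * u) : ℚ) < (E.choose (2 * u + 1) : ℚ) := by exact_mod_cast h6
      linarith
    · -- w = 3
      have hsum : ∑ i ∈ Finset.range (v + 1), P.coeff i =
          2 * ∑ i ∈ Finset.range (2 * u + 1 + 1), P.coeff i := by
        have e1 : v + 1 = (2 * u + 1 + 1) + (2 * u + 1 + 1) := by omega
        rw [e1, Finset.sum_range_add]
        have e2 : ∑ x ∈ Finset.range (2 * u + 1 + 1), P.coeff (2 * u + 1 + 1 + x) =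
            ∑ x ∈ Finset.range (2 * u + 1 + 1), P.coeff x := by
          rw [← Finset.sum_range_reflect]
          apply Finset.sum_congr rfl
          intro x hx
          rw [Finset.mem_range] at hx
          rw [hpal _ (by omega)]
          congr 1
          omega
        rw [e2]
        ring
      rw [heval, hsum,
        Finset.sum_congr rfl (fun i hi => hc i (by rw [Finset.mem_range] at hi; omega)),
        alt_sum E (2 * u + 1), pow_succ, pow_mul] at hpos
      norm_num at hpos
      have h3 : (0 : ℚ) ≤ (E.choose (2 * u + 1) : ℚ) := by positivity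
      linarith
  · intro hv3
    have h1 : P.coeff 1 = PowerSeries.coeff 1 F - ((E + 1 : ℕ) : ℚ) := by
      rw [hco 1]
      have : Finset.HasAntidiagonal.antidiagonal 1 = {((0 : ℕ), (1 : ℕ)), (1, 0)} := rfl
      rw [this, Finset.sum_insert (by simp), Finset.sum_singleton]
      simp only [hF0]
      simp
      ring
    have h2 : (-2 : ℚ) < P.coeff 1 := by
      have hcases : v = 0 ∨ v = 1 ∨ v = 2 ∨ v = 3 := by omega
      rcases hcases with h | h | h | h
      · rw [hbig 1 (by omega)]
        norm_num
      · have h3 := hpal 1 (by omega)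
        rw [h] at h3
        rw [h3]
        norm_num [hP0]
      · have h3 := hpal 2 (by omega)
        rw [heval, h] at hpos
        rw [h] at h3
        norm_num [Finset.sum_range_succ, hP0] at hpos h3
        rw [h3] at hpos
        linarith
      · have h3 := hpal 3 (by omega)
        have h4 := hpal 2 (by omega)
        rw [heval, h] at hpos
        rw [h] at h3 h4
        norm_num [Finset.sum_range_succ, hP0] at hpos h3 h4
        rw [h3, h4] at hpos
        linarith
    rw [h1] at h2
    linarith

end Pool.Agent.W252.CG
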